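import Pool.Agent.Q88.BiFree.Defs

/-!
The seminorm `norm2`.
-/

open scoped ComplexOrder

namespace Q88.BiFree

universe u

namespace Space

variable (P : Space.{u})

noncomputable section

/-- the spectral order of the algebra -/
abbrev ord : PartialOrder P.A := CStarAlgebra.spectralOrder P.A

theorem exists_pos : let _ := P.ord; let _ := CStarAlgebra.spectralOrderedRing P.A
    ∃ f : P.A →ₚ[ℂ] ℂ, ∀ a, f a = P.φ a := by
  let _ := P.ord
  let _ := CStarAlgebra.spectralOrderedRing P.A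
  refine ⟨PositiveLinearMap.mk₀ P.φ ?_, fun a => rfl⟩
  intro a ha
  obtain ⟨b, rfl⟩ := CStarAlgebra.nonneg_iff_eq_star_mul_self.1 ha
  exact P.φ_pos b

/-- All the facts on the seminorm that come from the GNS construction. -/
theorem norm2_facts :
    (∀ a b : P.A, P.norm2 (a + b) ≤ P.norm2 a + P.norm2 b) ∧
    (∀ (c : ℂ) (a : P.A), P.norm2 (c • a) = ‖c‖ * P.norm2 a) ∧
    (∀ a b : P.A, P.norm2 (a * b) ≤ ‖a‖ * P.norm2 b) ∧
    (∀ a b : P.A, ‖P.φ (star a * b)‖ ≤ P.norm2 a * P.norm2 b) ∧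
    (∀ a : P.A, ((P.norm2 a ^ 2 : ℝ) : ℂ) = P.φ (star a * a)) ∧
    (∀ a : P.A, P.φ (star a) = star (P.φ a)) := by
  let _ := P.ord
  let _ := CStarAlgebra.spectralOrderedRing P.A
  obtain ⟨f, hf⟩ := P.exists_pos
  have hn : ∀ a : P.A, P.norm2 a = ‖f.toPreGNS a‖ := by
    intro a
    rw [PositiveLinearMap.preGNS_norm_def]
    unfold norm2
    rw [← hf]
    rfl
  refine ⟨?_, ?_, ?_, ?_, ?_, ?_⟩
  · intro a b
    rw [hn, hn, hn, map_add]
    exact norm_add_le _ _
  · intro c a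
    rw [hn, hn, map_smul, norm_smul]
  · intro a b
    rw [hn, hn]
    have h1 : f.toPreGNS (a * b) = f.leftMulMapPreGNS a (f.toPreGNS b) := by
      simp
    rw [h1]
    calc ‖f.leftMulMapPreGNS a (f.toPreGNS b)‖ ≤ ‖f.leftMulMapPreGNS a‖ * ‖f.toPreGNS b‖ :=
          ContinuousLinearMap.le_opNorm _ _
      _ ≤ ‖a‖ * ‖f.toPreGNS b‖ := by
          apply mul_le_mul_of_nonneg_right _ (norm_nonneg _)
          exact LinearMap.mkContinuous_norm_le _ (norm_nonneg _) _
  · intro a b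
    rw [hn, hn, ← hf]
    have := norm_inner_le_norm (𝕜 := ℂ) (f.toPreGNS a) (f.toPreGNS b)
    rw [PositiveLinearMap.preGNS_inner_def] at this
    exact this
  · intro a
    rw [hn, ← hf]
    have := f.preGNS_norm_sq (f.toPreGNS a)
    simpa using this
  · intro a
    rw [← hf, ← hf]
    exact map_star f a

theorem norm2_add (a b : P.A) : P.norm2 (a + b) ≤ P.norm2 a + P.norm2 b := P.norm2_facts.1 a b

theorem norm2_smul (c : ℂ) (a : P.A) : P.norm2 (c • a) = ‖c‖ * P.norm2 a :=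
  P.norm2_facts.2.1 c a

theorem norm2_mul (a b : P.A) : P.norm2 (a * b) ≤ ‖a‖ * P.norm2 b := P.norm2_facts.2.2.1 a b

theorem norm_φ_le (a b : P.A) : ‖P.φ (star a * b)‖ ≤ P.norm2 a * P.norm2 b :=
  P.norm2_facts.2.2.2.1 a b

theorem norm2_sq (a : P.A) : ((P.norm2 a ^ 2 : ℝ) : ℂ) = P.φ (star a * a) :=
  P.norm2_facts.2.2.2.2.1 a

theorem φ_star (a : P.A) : P.φ (star a) = star (P.φ a) := P.norm2_facts.2.2.2.2.2 a

theorem norm2_nonneg (a : P.A) : 0 ≤ P.norm2 a := Real.sqrt_nonneg _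

theorem norm2_zero : P.norm2 0 = 0 := by
  have := P.norm2_smul 0 0
  simpa using this

theorem norm2_neg (a : P.A) : P.norm2 (-a) = P.norm2 a := by
  have := P.norm2_smul (-1) a
  simpa using this

theorem norm2_sub (a b : P.A) : P.norm2 (a - b) ≤ P.norm2 a + P.norm2 b := by
  rw [sub_eq_add_neg]
  have := P.norm2_add a (-b)
  rwa [norm2_neg] at this

theorem norm2_one : P.norm2 1 = 1 := by
  have h := P.norm2_sq 1
  rw [star_one, one_mul, P.φ_one] at h
  have h1 : P.norm2 1 ^ 2 = 1 := by exact_mod_cast h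
  have h2 := P.norm2_nonneg 1
  nlinarith

theorem norm_φ_le_norm2 (a : P.A) : ‖P.φ a‖ ≤ P.norm2 a := by
  have := P.norm_φ_le 1 a
  rwa [star_one, one_mul, norm2_one, one_mul] at this

theorem norm2_star {a : P.A} (ha : a ∈ P.R) : P.norm2 (star a) = P.norm2 a := by
  have h1 := P.norm2_sq (star a)
  have h2 := P.norm2_sq a
  rw [star_star, P.trace_R a ha (star a) (star_mem ha), ← h2] at h1
  have h3 : P.norm2 (star a) ^ 2 = P.norm2 a ^ 2 := by exact_mod_cast h1
  have h4 := P.norm2_nonneg a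
  have h5 := P.norm2_nonneg (star a)
  nlinarith

theorem norm2_mul' {a b : P.A} (ha : a ∈ P.R) (hb : b ∈ P.R) :
    P.norm2 (a * b) ≤ P.norm2 a * ‖b‖ := by
  rw [← P.norm2_star (mul_mem ha hb), star_mul]
  calc P.norm2 (star b * star a) ≤ ‖star b‖ * P.norm2 (star a) := P.norm2_mul _ _
    _ = P.norm2 a * ‖b‖ := by rw [norm_star, P.norm2_star ha, mul_comm]

theorem norm2_sub_comm (a b : P.A) : P.norm2 (a - b) = P.norm2 (b - a) := by
  rw [← norm2_neg, neg_sub]

theorem norm2_triangle (a b c : P.A) : P.norm2 (a - c) ≤ P.norm2 (a - b) + P.norm2 (b - c) := by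
  have : a - c = (a - b) + (b - c) := by abel
  rw [this]
  exact P.norm2_add _ _

/-- equality modulo the null ideal of the right algebra -/
structure Eqv (a b : P.A) : Prop where
  left_mem : a ∈ P.R
  right_mem : b ∈ P.R
  null : P.norm2 (a - b) = 0

variable {P}

theorem Eqv.refl {a : P.A} (ha : a ∈ P.R) : P.Eqv a a :=
  ⟨ha, ha, by rw [sub_self, norm2_zero]⟩

theorem Eqv.symm {a b : P.A} (h : P.Eqv a b) : P.Eqv b a :=
  ⟨h.2, h.1, by rw [norm2_sub_comm]; exact h.3⟩

theorem Eqv.trans {a b c : P.A} (h : P.Eqv a b) (h' : P.Eqv b c) : P.Eqv a c :=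
  ⟨h.1, h'.2, le_antisymm (by
    have := P.norm2_triangle a b c
    rw [h.3, h'.3] at this
    simpa using this) (P.norm2_nonneg _)⟩

theorem Eqv.add {a b c d : P.A} (h : P.Eqv a b) (h' : P.Eqv c d) : P.Eqv (a + c) (b + d) :=
  ⟨add_mem h.1 h'.1, add_mem h.2 h'.2, le_antisymm (by
    have e : a + c - (b + d) = (a - b) + (c - d) := by abel
    have := P.norm2_add (a - b) (c - d)
    rw [h.3, h'.3] at this
    rw [e]
    simpa using this) (P.norm2_nonneg _)⟩

theorem Eqv.mul {a b c d : P.A} (h : P.Eqv a b) (h' : P.Eqv c d) : P.Eqv (a * c) (b * d) :=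
  ⟨mul_mem h.1 h'.1, mul_mem h.2 h'.2, le_antisymm (by
    have e : a * c - b * d = (a - b) * c + b * (c - d) := by
      rw [sub_mul, mul_sub]; abel
    rw [e]
    have h1 := P.norm2_add ((a - b) * c) (b * (c - d))
    have h2 := P.norm2_mul' (sub_mem h.1 h.2) h'.1
    have h3 := P.norm2_mul b (c - d)
    rw [h.3] at h2
    rw [h'.3] at h3
    simp only [zero_mul, mul_zero] at h2 h3
    linarith) (P.norm2_nonneg _)⟩

theorem Eqv.star {a b : P.A} (h : P.Eqv a b) : P.Eqv (star a) (star b) :=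
  ⟨star_mem h.1, star_mem h.2, by
    rw [← star_sub, norm2_star P (sub_mem h.1 h.2)]
    exact h.3⟩

theorem Eqv.sum {ι : Type*} (s : Finset ι) {f g : ι → P.A} (h : ∀ i, P.Eqv (f i) (g i)) :
    P.Eqv (∑ i ∈ s, f i) (∑ i ∈ s, g i) := by
  classical
  induction s using Finset.induction_on with
  | empty => simpa using Eqv.refl (zero_mem _)
  | insert a s ha ih =>
    rw [Finset.sum_insert ha, Finset.sum_insert ha]
    exact (h a).add ih

theorem Eqv.φ_eq {a b : P.A} (h : P.Eqv a b) : P.φ a = P.φ b := by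
  have h1 := P.norm_φ_le_norm2 (a - b)
  rw [h.3, map_sub] at h1
  have h2 := le_antisymm h1 (norm_nonneg _)
  rwa [norm_eq_zero, sub_eq_zero] at h2

theorem Eqv.norm2_eq {a b : P.A} (h : P.Eqv a b) : P.norm2 a = P.norm2 b := by
  apply le_antisymm
  · have := P.norm2_add (a - b) b
    rw [h.3] at this
    simpa using this
  · have := P.norm2_add (b - a) a
    rw [h.symm.3] at this
    simpa using this

end

end Space

end Q88.BiFree
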