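import Pool.Agent.Q88.BiFree.Calc

/-!
The core estimate: two systems of matrix units in the tracial right algebra, one in antisymmetric
position and one in maximally entangled position to nearly the same left matrix units, cannot exist.
-/

open scoped ComplexOrder

namespace Q88.BiFree

universe u

noncomputable section

open Space

variable {P : Space.{u}}

/-- Bounded approximate matrix units of the right algebra (relations modulo the null ideal). -/
structure MU (P : Space.{u}) (E : Fin 3 → Fin 3 → P.A) (C : ℝ) : Prop where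
  mem : ∀ i j, E i j ∈ P.R
  bound : ∀ i j, ‖E i j‖ ≤ C
  mul : ∀ i j k l, P.Eqv (E i j * E k l) (if j = k then E i l else 0)
  star : ∀ i j, P.Eqv (star (E i j)) (E j i)
  one : P.Eqv (∑ i, E i i) 1

theorem MU.eqv {E : Fin 3 → Fin 3 → P.A} {C : ℝ} (h : MU P E C) (i j : Fin 3) :
    P.Eqv (E i j) (E i j) := Eqv.refl (h.mem i j)

theorem MU.mul_same {E : Fin 3 → Fin 3 → P.A} {C : ℝ} (h : MU P E C) (i j l : Fin 3) :
    P.Eqv (E i j * E j l) (E i l) := by
  have := h.mul i j j l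
  rwa [if_pos rfl] at this

/-- The sum of the range projections. -/
theorem MU.sum_one {E : Fin 3 → Fin 3 → P.A} {C : ℝ} (h : MU P E C) :
    P.Eqv (∑ j, E j 0 * E 0 j) 1 :=
  (Eqv.sum _ fun j => h.mul_same j 0 j).trans h.one

variable {E F : Fin 3 → Fin 3 → P.A} {C δ : ℝ} {x z : Fin 3 → Fin 3 → P.A}

theorem moment (hC : 1 ≤ C) (hδ : 0 ≤ δ) (hE : MU P E C) (hF : MU P F C)
    (hzF : ∀ i k, P.norm2 (z k i - F i k) = 0)
    (hxz : ∀ i k, P.norm2 (x k i - z k i) ≤ δ)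
    (hmom : ∀ l j i k, P.φ (E l j * x k i) =
      (1 / 6) * ((if k = i then 1 else 0) * (if l = j then 1 else 0)
        - (if k = j then 1 else 0) * (if i = l then 1 else 0)))
    (a b k l : Fin 3) :
    ‖P.φ ((E 0 b * F a 0) * (F 0 k * E l 0)) -
      (1 / 6) * ((if k = a then 1 else 0) * (if l = b then 1 else 0)
        - (if k = b then 1 else 0) * (if a = l then 1 else 0))‖ ≤ C * δ := by
  have h1 : P.φ ((E 0 b * F a 0) * (F 0 k * E l 0)) = P.φ (E l b * F a k) := by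
    have e1 : P.Eqv ((E 0 b * F a 0) * (F 0 k * E l 0)) (E 0 b * F a k * E l 0) := by
      have e : (E 0 b * F a 0) * (F 0 k * E l 0) = E 0 b * (F a 0 * F 0 k) * E l 0 := by
        simp only [mul_assoc]
      rw [e]
      exact ((hE.eqv 0 b).mul (hF.mul_same a 0 k)).mul (hE.eqv l 0)
    rw [e1.φ_eq, P.trace_R _ (mul_mem (hE.mem _ _) (hF.mem _ _)) _ (hE.mem _ _)]
    have e2 : E l 0 * (E 0 b * F a k) = (E l 0 * E 0 b) * F a k := by rw [mul_assoc]
    rw [e2]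
    exact ((hE.mul_same l 0 b).mul (hF.eqv a k)).φ_eq
  have h2 : P.φ (E l b * F a k) - P.φ (E l b * x k a) =
      - P.φ (star (star (E l b)) * (z k a - F a k)) - P.φ (star (star (E l b)) * (x k a - z k a)) := by
    rw [star_star, ← map_neg, ← map_sub, ← map_sub]
    congr 1
    noncomm_ring
  have h3 : P.norm2 (star (E l b)) ≤ C := by
    rw [P.norm2_star (hE.mem l b)]
    have := P.norm2_mul (E l b) 1
    rw [mul_one, P.norm2_one, mul_one] at this
    exact this.trans (hE.bound l b)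
  rw [h1, ← hmom l b a k, h2]
  have h4 := P.norm_φ_le (star (E l b)) (z k a - F a k)
  have h5 := P.norm_φ_le (star (E l b)) (x k a - z k a)
  rw [hzF, mul_zero] at h4
  have h6 : P.norm2 (star (E l b)) * P.norm2 (x k a - z k a) ≤ C * δ :=
    mul_le_mul h3 (hxz a k) (P.norm2_nonneg _) (by linarith)
  calc _ ≤ ‖- P.φ (star (star (E l b)) * (z k a - F a k))‖ +
        ‖P.φ (star (star (E l b)) * (x k a - z k a))‖ := norm_sub_le _ _
    _ ≤ C * δ := by rw [norm_neg]; linarith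

theorem anti (hC : 1 ≤ C) (hδ : 0 ≤ δ) (hE : MU P E C) (hF : MU P F C)
    (hzF : ∀ i k, P.norm2 (z k i - F i k) = 0)
    (hxz : ∀ i k, P.norm2 (x k i - z k i) ≤ δ)
    (hmom : ∀ l j i k, P.φ (E l j * x k i) =
      (1 / 6) * ((if k = i then 1 else 0) * (if l = j then 1 else 0)
        - (if k = j then 1 else 0) * (if i = l then 1 else 0)))
    (i j : Fin 3) :
    P.norm2 (F 0 i * E j 0 + F 0 j * E i 0) ≤ Real.sqrt (4 * C * δ) := by
  apply Real.le_sqrt_of_sq_le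
  have hst : ∀ a b, P.Eqv (star (F 0 a * E b 0)) (E 0 b * F a 0) := by
    intro a b
    rw [star_mul]
    exact (hE.star b 0).mul (hF.star 0 a)
  have hu : P.Eqv (F 0 i * E j 0 + F 0 j * E i 0) (F 0 i * E j 0 + F 0 j * E i 0) :=
    ((hF.eqv 0 i).mul (hE.eqv j 0)).add ((hF.eqv 0 j).mul (hE.eqv i 0))
  have h1 : P.φ (star (F 0 i * E j 0 + F 0 j * E i 0) * (F 0 i * E j 0 + F 0 j * E i 0)) =
      P.φ ((E 0 j * F i 0 + E 0 i * F j 0) * (F 0 i * E j 0 + F 0 j * E i 0)) := by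
    apply Eqv.φ_eq
    refine Eqv.mul ?_ hu
    rw [star_add]
    exact (hst i j).add (hst j i)
  have h2 := P.norm2_sq (F 0 i * E j 0 + F 0 j * E i 0)
  rw [h1] at h2
  have h3 : P.φ ((E 0 j * F i 0 + E 0 i * F j 0) * (F 0 i * E j 0 + F 0 j * E i 0)) =
      P.φ ((E 0 j * F i 0) * (F 0 i * E j 0)) + P.φ ((E 0 j * F i 0) * (F 0 j * E i 0)) +
      P.φ ((E 0 i * F j 0) * (F 0 i * E j 0)) + P.φ ((E 0 i * F j 0) * (F 0 j * E i 0)) := by
    rw [← map_add, ← map_add, ← map_add]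
    congr 1
    noncomm_ring
  have m1 := moment hC hδ hE hF hzF hxz hmom i j i j
  have m2 := moment hC hδ hE hF hzF hxz hmom i j j i
  have m3 := moment hC hδ hE hF hzF hxz hmom j i i j
  have m4 := moment hC hδ hE hF hzF hxz hmom j i j i
  set a1 := P.φ ((E 0 j * F i 0) * (F 0 i * E j 0))
  set a2 := P.φ ((E 0 j * F i 0) * (F 0 j * E i 0))
  set a3 := P.φ ((E 0 i * F j 0) * (F 0 i * E j 0))
  set a4 := P.φ ((E 0 i * F j 0) * (F 0 j * E i 0))
  have h4 : ‖((P.norm2 (F 0 i * E j 0 + F 0 j * E i 0) ^ 2 : ℝ) : ℂ)‖ ≤ 4 * C * δ := by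
    rw [h2, h3]
    have e : a1 + a2 + a3 + a4 =
      (a1 - (1 / 6) * ((if i = i then 1 else 0) * (if j = j then 1 else 0)
        - (if i = j then 1 else 0) * (if i = j then 1 else 0))) +
      (a2 - (1 / 6) * ((if j = i then 1 else 0) * (if i = j then 1 else 0)
        - (if j = j then 1 else 0) * (if i = i then 1 else 0))) +
      (a3 - (1 / 6) * ((if i = j then 1 else 0) * (if j = i then 1 else 0)
        - (if i = i then 1 else 0) * (if j = j then 1 else 0))) +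
      (a4 - (1 / 6) * ((if j = j then 1 else 0) * (if i = i then 1 else 0)
        - (if j = i then 1 else 0) * (if j = i then 1 else 0))) := by
      by_cases hij : i = j
      · subst hij; simp
      · have hji : ¬ j = i := fun h => hij h.symm
        simp only [hij, hji, if_true, if_false]
        ring
    rw [e]
    refine (norm_add_le _ _).trans ?_
    have := norm_add₃_le (a := (a1 - (1 / 6) * ((if i = i then 1 else 0) * (if j = j then 1 else 0)
        - (if i = j then 1 else 0) * (if i = j then 1 else 0))))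
        (b := (a2 - (1 / 6) * ((if j = i then 1 else 0) * (if i = j then 1 else 0)
        - (if j = j then 1 else 0) * (if i = i then 1 else 0))))
        (c := (a3 - (1 / 6) * ((if i = j then 1 else 0) * (if j = i then 1 else 0)
        - (if i = i then 1 else 0) * (if j = j then 1 else 0))))
    linarith
  rw [Complex.norm_real, Real.norm_eq_abs, abs_of_nonneg (sq_nonneg _)] at h4
  exact h4

theorem core (hC : 1 ≤ C) (hδ : 0 ≤ δ) (hE : MU P E C) (hF : MU P F C)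
    (hzF : ∀ i k, P.norm2 (z k i - F i k) = 0)
    (hxz : ∀ i k, P.norm2 (x k i - z k i) ≤ δ)
    (hmom : ∀ l j i k, P.φ (E l j * x k i) =
      (1 / 6) * ((if k = i then 1 else 0) * (if l = j then 1 else 0)
        - (if k = j then 1 else 0) * (if i = l then 1 else 0)))
    (h00 : P.φ (E 0 0) = 1 / 3) :
    1 / 12 ≤ 9 * C ^ 6 * Real.sqrt (4 * C * δ) := by
  set ε := Real.sqrt (4 * C * δ) with hε
  have hε0 : 0 ≤ ε := Real.sqrt_nonneg _
  have hanti := anti hC hδ hE hF hzF hxz hmom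
  have hC0 : 0 ≤ C := by linarith
  set u : Fin 3 → Fin 3 → P.A := fun i j => F 0 i * E j 0 with hu
  set v : Fin 3 → Fin 3 → P.A := fun i j => E 0 j * F i 0 with hv
  have hum : ∀ i j, u i j ∈ P.R := fun i j => mul_mem (hF.mem _ _) (hE.mem _ _)
  have hvm : ∀ i j, v i j ∈ P.R := fun i j => mul_mem (hE.mem _ _) (hF.mem _ _)
  have hub : ∀ i j, ‖u i j‖ ≤ C ^ 2 := by
    intro i j
    calc ‖F 0 i * E j 0‖ ≤ ‖F 0 i‖ * ‖E j 0‖ := norm_mul_le _ _
      _ ≤ C * C := mul_le_mul (hF.bound _ _) (hE.bound _ _) (norm_nonneg _) hC0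
      _ = C ^ 2 := by ring
  have hvb : ∀ i j, ‖v i j‖ ≤ C ^ 2 := by
    intro i j
    calc ‖E 0 j * F i 0‖ ≤ ‖E 0 j‖ * ‖F i 0‖ := norm_mul_le _ _
      _ ≤ C * C := mul_le_mul (hE.bound _ _) (hF.bound _ _) (norm_nonneg _) hC0
      _ = C ^ 2 := by ring
  have hst : ∀ a b, P.Eqv (star (u a b)) (v a b) := by
    intro a b
    simp only [hu, hv]
    rw [star_mul]
    exact (hE.star b 0).mul (hF.star 0 a)
  have ha : ∀ i j, P.norm2 (u i j + u j i) ≤ ε := fun i j => hanti i j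
  have hav : ∀ i j, P.norm2 (v i j + v j i) ≤ ε := by
    intro i j
    have h1 : P.Eqv (star (u i j + u j i)) (v i j + v j i) := by
      rw [star_add]
      exact (hst i j).add (hst j i)
    rw [← h1.norm2_eq, P.norm2_star (add_mem (hum _ _) (hum _ _))]
    exact ha i j
  have hdiag : ∀ i, P.norm2 (u i i) ≤ ε / 2 := by
    intro i
    have h1 : u i i + u i i = (2 : ℂ) • u i i := by rw [two_smul]
    have h2 := ha i i
    rw [h1, P.norm2_smul] at h2
    simp at h2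
    linarith
  have hdiagv : ∀ i, P.norm2 (v i i) ≤ ε / 2 := by
    intro i
    rw [← (hst i i).norm2_eq, P.norm2_star (hum i i)]
    exact hdiag i
  -- the row relation
  have hrow : P.Eqv (u 0 0 * v 1 0 + u 0 1 * v 1 1 + u 0 2 * v 1 2) 0 := by
    have e : u 0 0 * v 1 0 + u 0 1 * v 1 1 + u 0 2 * v 1 2 =
        F 0 0 * (∑ j, E j 0 * E 0 j) * F 1 0 := by
      rw [Fin.sum_univ_three]
      simp only [hu, hv]
      noncomm_ring
    rw [e]
    have h1 := ((hF.eqv 0 0).mul hE.sum_one).mul (hF.eqv 1 0)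
    have h2 := hF.mul 0 0 1 0
    rw [if_neg (by decide)] at h2
    rw [mul_one] at h1
    exact h1.trans h2
  -- the column relations
  have hcol : ∀ j, P.Eqv (v 0 j * u 0 j + v 1 j * u 1 j + v 2 j * u 2 j) (E 0 0) := by
    intro j
    have e : v 0 j * u 0 j + v 1 j * u 1 j + v 2 j * u 2 j =
        E 0 j * (∑ i, F i 0 * F 0 i) * E j 0 := by
      rw [Fin.sum_univ_three]
      simp only [hu, hv]
      noncomm_ring
    rw [e]
    have h1 := ((hE.eqv 0 j).mul hF.sum_one).mul (hE.eqv j 0)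
    rw [mul_one] at h1
    exact h1.trans (hE.mul_same 0 j 0)
  have hbc : P.norm2 (u 0 2 * v 1 2) ≤ C ^ 2 * ε := by
    have e : u 0 2 * v 1 2 = (u 0 0 * v 1 0 + u 0 1 * v 1 1 + u 0 2 * v 1 2 - 0) -
        (u 0 0 * v 1 0 + u 0 1 * v 1 1) := by abel
    rw [e]
    have h1 := P.norm2_sub (u 0 0 * v 1 0 + u 0 1 * v 1 1 + u 0 2 * v 1 2 - 0)
      (u 0 0 * v 1 0 + u 0 1 * v 1 1)
    rw [hrow.null] at h1
    have h2 := P.norm2_add (u 0 0 * v 1 0) (u 0 1 * v 1 1)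
    have h3 := P.norm2_mul' (hum 0 0) (hvm 1 0)
    have h4 := P.norm2_mul (u 0 1) (v 1 1)
    have h5 : P.norm2 (u 0 0) * ‖v 1 0‖ ≤ ε / 2 * C ^ 2 :=
      mul_le_mul (hdiag 0) (hvb 1 0) (norm_nonneg _) (by linarith)
    have h6 : ‖u 0 1‖ * P.norm2 (v 1 1) ≤ C ^ 2 * (ε / 2) :=
      mul_le_mul (hub 0 1) (hdiagv 1) (P.norm2_nonneg _) (by positivity)
    linarith
  set p : Fin 3 → Fin 3 → P.A := fun i j => v i j * u i j with hp
  have hpm : ∀ i j, p i j ∈ P.R := fun i j => mul_mem (hvm _ _) (hum _ _)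
  have hpdiag : ∀ i, P.norm2 (p i i) ≤ C ^ 2 * ε / 2 := by
    intro i
    have h1 := P.norm2_mul (v i i) (u i i)
    have h2 : ‖v i i‖ * P.norm2 (u i i) ≤ C ^ 2 * (ε / 2) :=
      mul_le_mul (hvb i i) (hdiag i) (P.norm2_nonneg _) (by positivity)
    simp only [hp]
    linarith
  have hpsym : ∀ i j, P.norm2 (p i j - p j i) ≤ 2 * C ^ 2 * ε := by
    intro i j
    have e : p i j - p j i = v i j * (u i j + u j i) - (v i j + v j i) * u j i := by
      simp only [hp]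
      rw [mul_add, add_mul]
      abel
    rw [e]
    have h1 := P.norm2_sub (v i j * (u i j + u j i)) ((v i j + v j i) * u j i)
    have h2 := P.norm2_mul (v i j) (u i j + u j i)
    have h3 := P.norm2_mul' (add_mem (hvm i j) (hvm j i)) (hum j i)
    have h4 : ‖v i j‖ * P.norm2 (u i j + u j i) ≤ C ^ 2 * ε :=
      mul_le_mul (hvb i j) (ha i j) (P.norm2_nonneg _) (by positivity)
    have h5 : P.norm2 (v i j + v j i) * ‖u j i‖ ≤ ε * C ^ 2 :=
      mul_le_mul (hav i j) (hub j i) (norm_nonneg _) hε0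
    linarith
  have c0 : P.norm2 (p 0 1 + p 0 2 - E 0 0) ≤ 4.5 * C ^ 2 * ε := by
    have e : p 0 1 + p 0 2 - E 0 0 = (p 0 0 + p 1 0 + p 2 0 - E 0 0) +
        ((p 0 1 - p 1 0) + (p 0 2 - p 2 0)) - p 0 0 := by abel
    rw [e]
    have h1 := P.norm2_sub ((p 0 0 + p 1 0 + p 2 0 - E 0 0) +
        ((p 0 1 - p 1 0) + (p 0 2 - p 2 0))) (p 0 0)
    have h2 := P.norm2_add (p 0 0 + p 1 0 + p 2 0 - E 0 0) ((p 0 1 - p 1 0) + (p 0 2 - p 2 0))
    have h3 := P.norm2_add (p 0 1 - p 1 0) (p 0 2 - p 2 0)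
    have h4 := (hcol 0).null
    have h5 := hpsym 0 1
    have h6 := hpsym 0 2
    have h7 := hpdiag 0
    simp only [hp] at *
    rw [h4] at h2
    linarith
  have c1 : P.norm2 (p 0 1 + p 1 2 - E 0 0) ≤ 2.5 * C ^ 2 * ε := by
    have e : p 0 1 + p 1 2 - E 0 0 = (p 0 1 + p 1 1 + p 2 1 - E 0 0) +
        (p 1 2 - p 2 1) - p 1 1 := by abel
    rw [e]
    have h1 := P.norm2_sub ((p 0 1 + p 1 1 + p 2 1 - E 0 0) + (p 1 2 - p 2 1)) (p 1 1)
    have h2 := P.norm2_add (p 0 1 + p 1 1 + p 2 1 - E 0 0) (p 1 2 - p 2 1)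
    have h4 := (hcol 1).null
    have h5 := hpsym 1 2
    have h7 := hpdiag 1
    simp only [hp] at *
    rw [h4] at h2
    linarith
  have c2 : P.norm2 (p 0 2 + p 1 2 - E 0 0) ≤ 0.5 * C ^ 2 * ε := by
    have e : p 0 2 + p 1 2 - E 0 0 = (p 0 2 + p 1 2 + p 2 2 - E 0 0) - p 2 2 := by abel
    rw [e]
    have h1 := P.norm2_sub (p 0 2 + p 1 2 + p 2 2 - E 0 0) (p 2 2)
    have h4 := (hcol 2).null
    have h7 := hpdiag 2
    simp only [hp] at *
    rw [h4] at h1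
    linarith
  set e := (1 / 2 : ℂ) • E 0 0 with he
  have hem : e ∈ P.R := SMulMemClass.smul_mem _ (hE.mem 0 0)
  have heb : ‖e‖ ≤ C := by
    rw [he, norm_smul]
    have := hE.bound 0 0
    have h2 : ‖(1 / 2 : ℂ)‖ = 1 / 2 := by simp
    rw [h2]
    nlinarith [norm_nonneg (E 0 0)]
  have hB : P.norm2 (p 0 2 - e) ≤ 4 * C ^ 2 * ε := by
    have e1 : p 0 2 - e = (1 / 2 : ℂ) • ((p 0 1 + p 0 2 - E 0 0) + (p 0 2 + p 1 2 - E 0 0) -
        (p 0 1 + p 1 2 - E 0 0)) := by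
      rw [he]
      module
    rw [e1, P.norm2_smul]
    have h1 := P.norm2_sub ((p 0 1 + p 0 2 - E 0 0) + (p 0 2 + p 1 2 - E 0 0))
        (p 0 1 + p 1 2 - E 0 0)
    have h2 := P.norm2_add (p 0 1 + p 0 2 - E 0 0) (p 0 2 + p 1 2 - E 0 0)
    have h3 : ‖(1 / 2 : ℂ)‖ = 1 / 2 := by simp
    rw [h3]
    have h4 : 0 ≤ C ^ 2 * ε := by positivity
    linarith
  have hG : P.norm2 (p 1 2 - e) ≤ 4 * C ^ 2 * ε := by
    have e1 : p 1 2 - e = (1 / 2 : ℂ) • ((p 0 1 + p 1 2 - E 0 0) + (p 0 2 + p 1 2 - E 0 0) -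
        (p 0 1 + p 0 2 - E 0 0)) := by
      rw [he]
      module
    rw [e1, P.norm2_smul]
    have h1 := P.norm2_sub ((p 0 1 + p 1 2 - E 0 0) + (p 0 2 + p 1 2 - E 0 0))
        (p 0 1 + p 0 2 - E 0 0)
    have h2 := P.norm2_add (p 0 1 + p 1 2 - E 0 0) (p 0 2 + p 1 2 - E 0 0)
    have h3 : ‖(1 / 2 : ℂ)‖ = 1 / 2 := by simp
    rw [h3]
    have h4 : 0 ≤ C ^ 2 * ε := by positivity
    linarith
  have hBG : P.norm2 (p 0 2 * p 1 2) ≤ C ^ 6 * ε := by
    have e1 : p 0 2 * p 1 2 = v 0 2 * ((u 0 2 * v 1 2) * u 1 2) := by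
      simp only [hp, mul_assoc]
    rw [e1]
    have h1 := P.norm2_mul (v 0 2) ((u 0 2 * v 1 2) * u 1 2)
    have h2 := P.norm2_mul' (mul_mem (hum 0 2) (hvm 1 2)) (hum 1 2)
    have h3 : P.norm2 (u 0 2 * v 1 2) * ‖u 1 2‖ ≤ C ^ 2 * ε * C ^ 2 :=
      mul_le_mul hbc (hub 1 2) (norm_nonneg _) (by positivity)
    have h4 : ‖v 0 2‖ * P.norm2 ((u 0 2 * v 1 2) * u 1 2) ≤ C ^ 2 * (C ^ 2 * ε * C ^ 2) :=
      mul_le_mul (hvb 0 2) (h2.trans h3) (P.norm2_nonneg _) (by positivity)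
    calc _ ≤ C ^ 2 * (C ^ 2 * ε * C ^ 2) := h1.trans h4
      _ = C ^ 6 * ε := by ring
  have hp12 : ‖p 1 2‖ ≤ C ^ 4 := by
    calc ‖v 1 2 * u 1 2‖ ≤ ‖v 1 2‖ * ‖u 1 2‖ := norm_mul_le _ _
      _ ≤ C ^ 2 * C ^ 2 := mul_le_mul (hvb _ _) (hub _ _) (norm_nonneg _) (by positivity)
      _ = C ^ 4 := by ring
  have hee : P.norm2 (e * e) ≤ 7 * C ^ 6 * ε + 2 * C ^ 6 * ε := by
    have e1 : e * e = p 0 2 * p 1 2 - (p 0 2 - e) * p 1 2 - e * (p 1 2 - e) := by noncomm_ring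
    rw [e1]
    have h1 := P.norm2_sub (p 0 2 * p 1 2 - (p 0 2 - e) * p 1 2) (e * (p 1 2 - e))
    have h2 := P.norm2_sub (p 0 2 * p 1 2) ((p 0 2 - e) * p 1 2)
    have h3 := P.norm2_mul' (sub_mem (hpm 0 2) hem) (hpm 1 2)
    have h4 : P.norm2 (p 0 2 - e) * ‖p 1 2‖ ≤ 4 * C ^ 2 * ε * C ^ 4 :=
      mul_le_mul hB hp12 (norm_nonneg _) (by positivity)
    have h5 := P.norm2_mul e (p 1 2 - e)
    have h6 : ‖e‖ * P.norm2 (p 1 2 - e) ≤ C * (4 * C ^ 2 * ε) :=
      mul_le_mul heb hG (P.norm2_nonneg _) hC0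
    have h7 : C * (4 * C ^ 2 * ε) ≤ 4 * C ^ 6 * ε := by
      have : C ^ 3 ≤ C ^ 6 := pow_le_pow_right₀ hC (by norm_num)
      have : C ^ 3 * ε ≤ C ^ 6 * ε := mul_le_mul_of_nonneg_right this hε0
      linarith
    have h8 : 4 * C ^ 2 * ε * C ^ 4 = 4 * (C ^ 6 * ε) := by ring
    linarith
  have hee' : P.Eqv (e * e) ((1 / 4 : ℂ) • E 0 0) := by
    have e1 : e * e = (1 / 4 : ℂ) • (E 0 0 * E 0 0) := by
      rw [he, smul_mul_smul_comm]
      norm_num
    rw [e1]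
    have h1 := hE.mul_same 0 0 0
    refine ⟨SMulMemClass.smul_mem _ h1.1, SMulMemClass.smul_mem _ h1.2, ?_⟩
    rw [← smul_sub, P.norm2_smul, h1.3, mul_zero]
  have hlow : 1 / 12 ≤ P.norm2 (e * e) := by
    rw [hee'.norm2_eq]
    have h1 := P.norm_φ_le_norm2 ((1 / 4 : ℂ) • E 0 0)
    rw [map_smul, h00] at h1
    have h2 : ‖(1 / 4 : ℂ) • (1 / 3 : ℂ)‖ = 1 / 12 := by
      rw [smul_eq_mul]
      norm_num
    rw [h2] at h1
    exact h1
  calc (1 : ℝ) / 12 ≤ P.norm2 (e * e) := hlow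
    _ ≤ 7 * C ^ 6 * ε + 2 * C ^ 6 * ε := hee
    _ = 9 * C ^ 6 * ε := by ring

end

end Q88.BiFree
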