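import Mathlib

/-!
# Left-right, tracially bi-partite C*-probability spaces and the bi-free Wasserstein distance

* `Space` : a left-right, tracially bi-partite C*-probability space `(A, L, R, φ)`.
* `Sys P n m` : a tracially bi-partite system with `n` left and `m` right variables in `P`.
* `Same S S'` : the two systems have the same distribution and the corresponding operators have the
  same operator norms.
* `W2 S T` : the bi-free Wasserstein distance.
-/

open scoped ComplexOrder

namespace Q88.BiFree

universe u v w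

/-- A left-right, tracially bi-partite C*-probability space. -/
structure Space where
  /-- the C*-algebra -/
  A : Type u
  [cstar : CStarAlgebra A]
  /-- the state -/
  φ : A →ₗ[ℂ] ℂ
  φ_one : φ 1 = 1
  φ_pos : ∀ a, 0 ≤ φ (star a * a)
  /-- the left algebra -/
  L : StarSubalgebra ℂ A
  /-- the right algebra -/
  R : StarSubalgebra ℂ A
  L_closed : IsClosed (L : Set A)
  R_closed : IsClosed (R : Set A)
  comm : ∀ a ∈ L, ∀ b ∈ R, a * b = b * a
  trace_L : ∀ a ∈ L, ∀ b ∈ L, φ (a * b) = φ (b * a)
  trace_R : ∀ a ∈ R, ∀ b ∈ R, φ (a * b) = φ (b * a)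

attribute [instance] Space.cstar

/-- The seminorm `‖a‖₂ = φ(a* a)^{1/2}`. -/
noncomputable def Space.norm2 (P : Space.{u}) (a : P.A) : ℝ := Real.sqrt (P.φ (star a * a)).re

/-- A tracially bi-partite system with `n` left and `m` right variables. -/
structure Sys (P : Space.{u}) (n m : ℕ) where
  /-- left variables -/
  X : Fin n → P.A
  /-- right variables -/
  Y : Fin m → P.A
  X_sa : ∀ i, star (X i) = X i
  Y_sa : ∀ j, star (Y j) = Y j
  X_mem : ∀ i, X i ∈ P.L
  Y_mem : ∀ j, Y j ∈ P.R

/-- All the variables of a system. -/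
def Sys.op {P : Space.{u}} {n m : ℕ} (S : Sys P n m) : Fin n ⊕ Fin m → P.A := Sum.elim S.X S.Y

/-- Two systems (possibly in different spaces) have the same distribution, and corresponding
operators have the same operator norm. -/
structure Same {P : Space.{u}} {Q : Space.{v}} {n m : ℕ} (S : Sys P n m) (T : Sys Q n m) :
    Prop where
  law : ∀ l : List (Fin n ⊕ Fin m), P.φ (l.map S.op).prod = Q.φ (l.map T.op).prod
  normX : ∀ i, ‖S.X i‖ = ‖T.X i‖
  normY : ∀ j, ‖S.Y j‖ = ‖T.Y j‖

/-- The `ℓ²`-distance of two systems in one space. -/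
noncomputable def cost {P : Space.{u}} {n m : ℕ} (S T : Sys P n m) : ℝ :=
  Real.sqrt (∑ i, P.norm2 (S.X i - T.X i) ^ 2 + ∑ j, P.norm2 (S.Y j - T.Y j) ^ 2)

/-- The costs of all couplings of `S` and `T`, over all spaces. -/
def costs {P Q : Space.{u}} {n m : ℕ} (S : Sys P n m) (T : Sys Q n m) : Set ℝ :=
  {r | ∃ (C : Space.{u}) (S' T' : Sys C n m), Same S' S ∧ Same T' T ∧ r = cost S' T'}

/-- The bi-free Wasserstein distance. -/
noncomputable def W2 {P Q : Space.{u}} {n m : ℕ} (S : Sys P n m) (T : Sys Q n m) : ℝ :=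
  sInf (costs S T)

end Q88.BiFree
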