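import Pool.Agent.Q88.BiFree.Systems

/-!
Lower bound for couplings, upper bounds, and the failure of the triangle inequality.
-/

open scoped ComplexOrder Matrix Kronecker
open Matrix

namespace Q88.BiFree

universe u

noncomputable section

open scoped Matrix.Norms.L2Operator

/-- The systems built from a left and a right copy of the `3 × 3` matrices. -/
def mk (α β : M3.{u} →⋆ₐ[ℂ] model.{u}.A) (hα : ∀ a, α a ∈ model.{u}.L)
    (hβ : ∀ a, β a ∈ model.{u}.R) (s : ℝ) : Sys model.{u} 18 18 where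
  X k := α (gen (idx.symm k))
  Y k := (s : ℂ) • β (gen (idx.symm k))
  X_sa k := by rw [← map_star, gen_star]
  Y_sa k := by
    rw [star_smul, ← map_star, gen_star]
    simp
  X_mem k := hα _
  Y_mem k := SMulMemClass.smul_mem _ (hβ _)

open FreeAlgebra in
/-- left matrix units as polynomials -/
def pl (i j : Fin 3) : FreeAlgebra ℂ (Fin 18 ⊕ Fin 18) :=
  (1 / 2 : ℂ) • (ι ℂ (Sum.inl (idx (false, i, j))) - Complex.I • ι ℂ (Sum.inl (idx (true, i, j))))

open FreeAlgebra in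
/-- right matrix units as polynomials -/
def pr (s : ℝ) (i j : Fin 3) : FreeAlgebra ℂ (Fin 18 ⊕ Fin 18) :=
  ((s : ℂ)⁻¹ * (1 / 2)) •
    (ι ℂ (Sum.inr (idx (false, i, j))) - Complex.I • ι ℂ (Sum.inr (idx (true, i, j))))

theorem ev_pl {P : Space.{u}} (S : Sys P 18 18) (i j : Fin 3) :
    S.ev (pl i j) = (1 / 2 : ℂ) • (S.X (idx (false, i, j)) - Complex.I • S.X (idx (true, i, j))) := by
  unfold pl
  rw [map_smul, map_sub, map_smul, S.ev_ι, S.ev_ι]
  rfl

theorem ev_pr {P : Space.{u}} (S : Sys P 18 18) (s : ℝ) (i j : Fin 3) :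
    S.ev (pr s i j) = ((s : ℂ)⁻¹ * (1 / 2)) •
      (S.Y (idx (false, i, j)) - Complex.I • S.Y (idx (true, i, j))) := by
  unfold pr
  rw [map_smul, map_sub, map_smul, S.ev_ι, S.ev_ι]
  rfl

variable {α β : M3.{u} →⋆ₐ[ℂ] model.{u}.A} {hα : ∀ a, α a ∈ model.{u}.L}
    {hβ : ∀ a, β a ∈ model.{u}.R} {s : ℝ}

theorem mk_pl (i j : Fin 3) : (mk α β hα hβ s).ev (pl i j) = α (eu i j) := by
  rw [ev_pl, ← gen_comb, map_smul, map_sub, map_smul]
  simp only [mk, Equiv.symm_apply_apply]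

theorem mk_pr (hs : 0 < s) (i j : Fin 3) : (mk α β hα hβ s).ev (pr s i j) = β (eu i j) := by
  rw [ev_pr, ← gen_comb, map_smul, map_sub, map_smul]
  simp only [mk, Equiv.symm_apply_apply]
  have hs' : (s : ℂ) ≠ 0 := by exact_mod_cast hs.ne'
  have h1 : (s : ℂ) • β (gen (false, i, j)) - Complex.I • (s : ℂ) • β (gen (true, i, j)) =
      (s : ℂ) • (β (gen (false, i, j)) - Complex.I • β (gen (true, i, j))) := by
    rw [smul_comm, ← smul_sub]
  rw [h1, smul_smul]
  congr 1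
  field_simp

/-- a bound for the norms of all generators -/
def bd : ℝ := 1 + ∑ k : Bool × Fin 3 × Fin 3, ‖gen.{u} k‖

theorem gen_le (k : Bool × Fin 3 × Fin 3) : ‖gen.{u} k‖ ≤ bd.{u} := by
  unfold bd
  have := Finset.single_le_sum (f := fun k => ‖gen.{u} k‖) (fun k _ => norm_nonneg _)
    (Finset.mem_univ k)
  linarith

theorem one_le_bd : 1 ≤ bd.{u} := by
  unfold bd
  have := Finset.sum_nonneg (s := Finset.univ) (f := fun k => ‖gen.{u} k‖)
    (fun k _ => norm_nonneg _)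
  linarith

/-- The right matrix units of a system with the same law as a model system. -/
theorem mu_of_same {P : Space.{u}} {S : Sys P 18 18} (hs : 0 < s)
    (hβn : ∀ a, ‖β a‖ = ‖a‖)
    (h : Same S (mk α β hα hβ s)) : MU P (fun i j => S.ev (pr s i j)) bd.{u} := by
  have hmem : ∀ i j, S.ev (pr s i j) ∈ P.R := by
    intro i j
    rw [ev_pr]
    exact SMulMemClass.smul_mem _ (sub_mem (S.Y_mem _) (SMulMemClass.smul_mem _ (S.Y_mem _)))
  have hnull : ∀ p : FreeAlgebra ℂ (Fin 18 ⊕ Fin 18), (mk α β hα hβ s).ev p = 0 →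
      P.norm2 (S.ev p) = 0 := by
    intro p hp
    rw [h.norm2_ev, hp, Space.norm2_zero]
  refine ⟨hmem, ?_, ?_, ?_, ?_⟩
  · intro i j
    rw [ev_pr, norm_smul]
    have h1 : ∀ k, ‖S.Y (idx k)‖ ≤ s * bd.{u} := by
      intro k
      rw [h.normY]
      simp only [mk, Equiv.symm_apply_apply]
      rw [norm_smul, hβn]
      have : ‖(s : ℂ)‖ = s := by simp [abs_of_pos hs]
      rw [this]
      exact mul_le_mul_of_nonneg_left (gen_le k) hs.le
    have h2 : ‖S.Y (idx (false, i, j)) - Complex.I • S.Y (idx (true, i, j))‖ ≤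
        s * bd.{u} + s * bd.{u} := by
      refine (norm_sub_le _ _).trans (add_le_add (h1 _) ?_)
      rw [norm_smul, Complex.norm_I, one_mul]
      exact h1 _
    have h3 : ‖((s : ℂ)⁻¹ * (1 / 2))‖ = s⁻¹ * (1 / 2) := by
      simp [abs_of_pos hs]
    rw [h3]
    calc s⁻¹ * (1 / 2) * ‖S.Y (idx (false, i, j)) - Complex.I • S.Y (idx (true, i, j))‖
        ≤ s⁻¹ * (1 / 2) * (s * bd.{u} + s * bd.{u}) := by
          apply mul_le_mul_of_nonneg_left h2
          positivity
      _ = bd.{u} := by field_simp; ring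
  · intro i j k l
    refine ⟨mul_mem (hmem _ _) (hmem _ _), ?_, ?_⟩
    · split_ifs
      · exact hmem _ _
      · exact zero_mem _
    · have e : S.ev (pr s i j) * S.ev (pr s k l) - (if j = k then S.ev (pr s i l) else 0) =
          S.ev (pr s i j * pr s k l - if j = k then pr s i l else 0) := by
        rw [map_sub, map_mul]
        split_ifs
        · rfl
        · rw [map_zero]
      rw [e]
      apply hnull
      rw [map_sub, map_mul, mk_pr hs, mk_pr hs, ← map_mul, eu_mul]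
      split_ifs
      · rw [mk_pr hs, sub_self]
      · rw [map_zero, map_zero, sub_zero]
  · intro i j
    refine ⟨star_mem (hmem _ _), hmem _ _, ?_⟩
    obtain ⟨q, hq, -⟩ := exists_dagger.{u, u} (pr s i j)
    rw [hq, ← map_sub]
    apply hnull
    rw [map_sub, ← hq, mk_pr hs, mk_pr hs, ← map_star, eu_star, sub_self]
  · refine ⟨sum_mem fun i _ => hmem _ _, one_mem _, ?_⟩
    have e : ∑ i, S.ev (pr s i i) - 1 = S.ev (∑ i, pr s i i - 1) := by
      rw [map_sub, map_one, map_sum]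
    rw [e]
    apply hnull
    rw [map_sub, map_one, map_sum]
    simp only [mk_pr hs]
    rw [← map_sum, eu_sum, map_one, sub_self]

/-- The antisymmetric system. -/
def S1 (s : ℝ) : Sys model.{u} 18 18 := mk α1 β1 α1_mem β1_mem s

/-- The maximally entangled system. -/
def S3 (s : ℝ) : Sys model.{u} 18 18 := mk α3 β3 α3_mem β3_mem s

theorem cost_ge_X {P : Space.{u}} {n m : ℕ} (S T : Sys P n m) (i : Fin n) :
    P.norm2 (S.X i - T.X i) ≤ cost S T := by
  unfold cost
  apply Real.le_sqrt_of_sq_le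
  have h1 : P.norm2 (S.X i - T.X i) ^ 2 ≤ ∑ i, P.norm2 (S.X i - T.X i) ^ 2 :=
    Finset.single_le_sum (f := fun i => P.norm2 (S.X i - T.X i) ^ 2)
      (fun k _ => sq_nonneg _) (Finset.mem_univ i)
  have h2 : 0 ≤ ∑ j, P.norm2 (S.Y j - T.Y j) ^ 2 := Finset.sum_nonneg fun k _ => sq_nonneg _
  linarith

theorem cost_nonneg {P : Space.{u}} {n m : ℕ} (S T : Sys P n m) : 0 ≤ cost S T :=
  Real.sqrt_nonneg _

theorem lower_bound {P : Space.{u}} {S T : Sys P 18 18} (hs : 0 < s)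
    (hS : Same S (S1.{u} s)) (hT : Same T (S3.{u} s)) :
    1 / 12 ≤ 9 * bd.{u} ^ 6 * Real.sqrt (4 * bd.{u} * cost S T) := by
  have hE : MU P (fun i j => S.ev (pr s i j)) bd.{u} :=
    mu_of_same (α := α1) (β := β1) (hα := α1_mem) (hβ := β1_mem) hs β1_norm hS
  have hF : MU P (fun i j => T.ev (pr s i j)) bd.{u} :=
    mu_of_same (α := α3) (β := β3) (hα := α3_mem) (hβ := β3_mem) hs β3_norm hT
  apply core (x := fun k i => S.ev (pl k i)) (z := fun k i => T.ev (pl k i)) one_le_bd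
    (cost_nonneg S T) hE hF
  · intro i k
    rw [← map_sub, hT.norm2_ev, map_sub]
    have h1 : (S3.{u} s).ev (pl k i) = α3 (eu k i) := mk_pl k i
    have h2 : (S3.{u} s).ev (pr s i k) = β3 (eu i k) := mk_pr hs i k
    rw [h1, h2]
    exact norm2_entangled i k
  · intro i k
    rw [ev_pl, ev_pl]
    have e : (1 / 2 : ℂ) • (S.X (idx (false, k, i)) - Complex.I • S.X (idx (true, k, i))) -
        (1 / 2 : ℂ) • (T.X (idx (false, k, i)) - Complex.I • T.X (idx (true, k, i))) =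
        (1 / 2 : ℂ) • ((S.X (idx (false, k, i)) - T.X (idx (false, k, i))) +
          (-Complex.I) • (S.X (idx (true, k, i)) - T.X (idx (true, k, i)))) := by
      module
    rw [e, P.norm2_smul]
    have h1 := P.norm2_add (S.X (idx (false, k, i)) - T.X (idx (false, k, i)))
      ((-Complex.I) • (S.X (idx (true, k, i)) - T.X (idx (true, k, i))))
    rw [P.norm2_smul, norm_neg, Complex.norm_I, one_mul] at h1
    have h2 := cost_ge_X S T (idx (false, k, i))
    have h3 := cost_ge_X S T (idx (true, k, i))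
    have h4 : ‖(1 / 2 : ℂ)‖ = 1 / 2 := by simp
    rw [h4]
    linarith
  · intro l j i k
    rw [← map_mul, hS.φ_ev, map_mul]
    have h1 : (S1.{u} s).ev (pl k i) = α1 (eu k i) := mk_pl k i
    have h2 : (S1.{u} s).ev (pr s l j) = β1 (eu l j) := mk_pr hs l j
    rw [h1, h2, φ_β1_α1, eu_mul]
    have ht : ∀ i j : Fin 3, (eu.{u} i j).trace = if i = j then 1 else 0 := by
      intro i j
      unfold eu
      split_ifs with h
      · subst h; rw [trace_single_eq_same]
      · rw [trace_single_eq_of_ne]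
        intro h'
        exact h (congrArg ULift.down h')
    rw [ht, ht]
    have hc : (if i = l then eu.{u} k j else 0).trace =
        (if k = j then 1 else 0) * (if i = l then 1 else 0) := by
      split_ifs with h1 h2 h2
      · rw [ht, if_pos h2]; ring
      · rw [ht, if_neg h2]; ring
      · rw [trace_zero]; ring
      · rw [trace_zero]; ring
    rw [hc]
  · rw [hS.φ_ev]
    have h2 : (S1.{u} s).ev (pr s 0 0) = β1 (eu 0 0) := mk_pr hs 0 0
    rw [h2]
    show st (kr _ _ (kl _ _ _)) = _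
    rw [st_right, kl_apply, trace_kronecker, trace_one_I3]
    unfold eu
    rw [trace_single_eq_same]
    norm_num

/-- The two zero-right systems have the same law. -/
theorem same_zero : Same (S3.{u} 0) (S1.{u} 0) := by
  have hop : ∀ (α β : M3.{u} →⋆ₐ[ℂ] model.{u}.A) (hα : ∀ a, α a ∈ model.{u}.L)
      (hβ : ∀ a, β a ∈ model.{u}.R) (k : Fin 18 ⊕ Fin 18),
      (mk α β hα hβ 0).op k = α (Sum.elim (fun k => gen (idx.symm k)) (fun _ => 0) k) := by
    intro α β hα hβ k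
    rcases k with k | k
    · rfl
    · show ((0 : ℝ) : ℂ) • β _ = α 0
      rw [map_zero]
      simp
  constructor
  · intro l
    have h1 : ∀ (α β : M3.{u} →⋆ₐ[ℂ] model.{u}.A) (hα : ∀ a, α a ∈ model.{u}.L)
      (hβ : ∀ a, β a ∈ model.{u}.R), (l.map (mk α β hα hβ 0).op).prod =
        α ((l.map (Sum.elim (fun k => gen (idx.symm k)) (fun _ => 0))).prod) := by
      intro α β hα hβ
      rw [map_list_prod, List.map_map]
      congr 1
      apply List.map_congr_left
      intro k _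
      exact hop α β hα hβ k
    show model.{u}.φ (l.map (mk α3 β3 α3_mem β3_mem 0).op).prod =
      model.{u}.φ (l.map (mk α1 β1 α1_mem β1_mem 0).op).prod
    rw [h1 α3 β3 α3_mem β3_mem, h1 α1 β1 α1_mem β1_mem, φ_α1, φ_α3]
  · intro i
    exact (α3_norm _).trans (α1_norm _).symm
  · intro j
    show ‖((0 : ℝ) : ℂ) • β3 _‖ = ‖((0 : ℝ) : ℂ) • β1 _‖
    simp

theorem Same.rfl' {P : Space.{u}} {n m : ℕ} (S : Sys P n m) : Same S S :=
  ⟨fun _ => rfl, fun _ => rfl, fun _ => rfl⟩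

theorem costs_nonneg {P Q : Space.{u}} {n m : ℕ} {S : Sys P n m} {T : Sys Q n m} {r : ℝ}
    (hr : r ∈ costs S T) : 0 ≤ r := by
  obtain ⟨C, S', T', -, -, rfl⟩ := hr
  exact cost_nonneg _ _

theorem mem_costs {P Q C : Space.{u}} {n m : ℕ} {S : Sys P n m} {T : Sys Q n m}
    {S' T' : Sys C n m} (h : Same S' S) (h' : Same T' T) : cost S' T' ∈ costs S T :=
  ⟨C, S', T', h, h', rfl⟩

theorem W2_le {P Q C : Space.{u}} {n m : ℕ} {S : Sys P n m} {T : Sys Q n m} {S' T' : Sys C n m}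
    (h : Same S' S) (h' : Same T' T) : W2 S T ≤ cost S' T' := by
  apply csInf_le
  · exact ⟨0, fun r hr => costs_nonneg hr⟩
  · exact ⟨C, S', T', h, h', rfl⟩

theorem cost_scale (s : ℝ) (hs : 0 < s) :
    cost (mk α β hα hβ s) (mk α β hα hβ 0) = s * cost (mk α β hα hβ 1) (mk α β hα hβ 0) := by
  unfold cost
  have h1 : ∀ t : ℝ, (∑ i, model.{u}.norm2 ((mk α β hα hβ t).X i - (mk α β hα hβ 0).X i) ^ 2) = 0 := by
    intro t
    apply Finset.sum_eq_zero
    intro i _
    show model.{u}.norm2 (α _ - α _) ^ 2 = 0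
    rw [sub_self, Space.norm2_zero]
    norm_num
  have h2 : ∀ t : ℝ, (∑ i, model.{u}.norm2 ((mk α β hα hβ t).Y i - (mk α β hα hβ 0).Y i) ^ 2) =
      t ^ 2 * ∑ i, model.{u}.norm2 (β (gen (idx.symm i))) ^ 2 := by
    intro t
    rw [Finset.mul_sum]
    apply Finset.sum_congr rfl
    intro i _
    show model.{u}.norm2 ((t : ℂ) • β _ - ((0 : ℝ) : ℂ) • β _) ^ 2 = _
    rw [Complex.ofReal_zero, zero_smul, sub_zero, Space.norm2_smul, mul_pow]
    simp
  rw [h1, h1, h2, h2, zero_add, zero_add, one_pow, one_mul, Real.sqrt_mul (sq_nonneg s),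
    Real.sqrt_sq hs.le]

theorem cost_comm {P : Space.{u}} {n m : ℕ} (S T : Sys P n m) : cost S T = cost T S := by
  unfold cost
  congr 2
  · apply Finset.sum_congr rfl
    intro i _
    rw [P.norm2_sub_comm]
  · apply Finset.sum_congr rfl
    intro i _
    rw [P.norm2_sub_comm]

theorem exists_scale (K c δ : ℝ) (hc : 0 ≤ c) (hδ : 0 < δ) :
    ∃ s : ℝ, 0 < s ∧ |K| * (s * c) < δ := by
  have hK := abs_nonneg K
  refine ⟨δ / (2 * ((|K| + 1) * (c + 1))), by positivity, ?_⟩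
  have h1 : |K| * (δ / (2 * ((|K| + 1) * (c + 1))) * c) =
      δ * ((|K| * c) / (2 * ((|K| + 1) * (c + 1)))) := by
    field_simp
  rw [h1]
  have h2 : (|K| * c) / (2 * ((|K| + 1) * (c + 1))) < 1 := by
    rw [div_lt_one (by positivity)]
    nlinarith
  nlinarith

/-- The main theorem: the triangle inequality fails, with any constant. -/
theorem main (K : ℝ) : ∃ S₁ S₂ S₃ : Sys model.{u} 18 18,
    (costs S₁ S₂).Nonempty ∧ (costs S₂ S₃).Nonempty ∧ (costs S₁ S₃).Nonempty ∧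
    K * (W2 S₁ S₂ + W2 S₂ S₃) < W2 S₁ S₃ := by
  set c1 := cost (S1.{u} 1) (S1.{u} 0) with hc1
  set c3 := cost (S3.{u} 1) (S3.{u} 0) with hc3
  have hc1' : 0 ≤ c1 := cost_nonneg _ _
  have hc3' : 0 ≤ c3 := cost_nonneg _ _
  have hb := one_le_bd.{u}
  set B := bd.{u} with hB
  -- a lower bound for all the costs between `S1 s` and `S3 s`
  obtain ⟨δ, hδ, hlow⟩ : ∃ δ : ℝ, 0 < δ ∧ ∀ s, 0 < s → ∀ r ∈ costs (S1.{u} s) (S3 s), δ ≤ r := by
    refine ⟨(1 / (120 * B ^ 6)) ^ 2 / (4 * B), by positivity, ?_⟩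
    intro s hs r hr
    obtain ⟨C, S', T', h, h', rfl⟩ := hr
    have h1 := lower_bound hs h h'
    by_contra hcon
    push Not at hcon
    have h2 : 4 * B * cost S' T' ≤ (1 / (120 * B ^ 6)) ^ 2 := by
      rw [lt_div_iff₀ (by positivity)] at hcon
      linarith
    have h3 : Real.sqrt (4 * B * cost S' T') ≤ 1 / (120 * B ^ 6) := by
      rw [← Real.sqrt_sq (show 0 ≤ 1 / (120 * B ^ 6) by positivity)]
      exact Real.sqrt_le_sqrt h2
    have h4 : 9 * B ^ 6 * Real.sqrt (4 * B * cost S' T') ≤ 9 * B ^ 6 * (1 / (120 * B ^ 6)) :=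
      mul_le_mul_of_nonneg_left h3 (by positivity)
    have h5 : 9 * B ^ 6 * (1 / (120 * B ^ 6)) = 9 / 120 := by
      field_simp
    rw [h5] at h4
    have := h1.trans h4
    norm_num at this
  -- choice of the scale
  obtain ⟨s, hs, hs'⟩ := exists_scale K (c1 + c3) δ (add_nonneg hc1' hc3') hδ
  have ne12 : (costs (S1.{u} s) (S1 0)).Nonempty :=
    ⟨_, mem_costs (Same.rfl' (S1.{u} s)) (Same.rfl' (S1.{u} 0))⟩
  have ne23 : (costs (S1.{u} 0) (S3 s)).Nonempty :=
    ⟨_, mem_costs same_zero.{u} (Same.rfl' (S3.{u} s))⟩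
  have ne13 : (costs (S1.{u} s) (S3 s)).Nonempty :=
    ⟨_, mem_costs (Same.rfl' (S1.{u} s)) (Same.rfl' (S3.{u} s))⟩
  refine ⟨S1 s, S1 0, S3 s, ne12, ne23, ne13, ?_⟩
  have h12 : W2 (S1.{u} s) (S1 0) ≤ s * c1 := by
    have h := W2_le (Same.rfl' (S1.{u} s)) (Same.rfl' (S1.{u} 0))
    have h' : cost (S1.{u} s) (S1.{u} 0) = s * cost (S1.{u} 1) (S1.{u} 0) := cost_scale s hs
    rwa [h'] at h
  have h23 : W2 (S1.{u} 0) (S3 s) ≤ s * c3 := by
    have h := W2_le same_zero.{u} (Same.rfl' (S3.{u} s))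
    have h' : cost (S3.{u} s) (S3.{u} 0) = s * cost (S3.{u} 1) (S3.{u} 0) := cost_scale s hs
    rwa [cost_comm, h'] at h
  have h12' : 0 ≤ W2 (S1.{u} s) (S1 0) := Real.sInf_nonneg fun r hr => costs_nonneg hr
  have h23' : 0 ≤ W2 (S1.{u} 0) (S3 s) := Real.sInf_nonneg fun r hr => costs_nonneg hr
  have h13 : δ ≤ W2 (S1.{u} s) (S3 s) :=
    le_csInf ne13 (hlow s hs)
  calc K * (W2 (S1.{u} s) (S1 0) + W2 (S1 0) (S3 s))
      ≤ |K| * (W2 (S1.{u} s) (S1 0) + W2 (S1 0) (S3 s)) :=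
        mul_le_mul_of_nonneg_right (le_abs_self K) (by linarith)
    _ ≤ |K| * (s * (c1 + c3)) := by
        apply mul_le_mul_of_nonneg_left _ (abs_nonneg K)
        linarith
    _ < δ := hs'
    _ ≤ _ := h13

end

end Q88.BiFree
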