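import Pool.Agent.Q88.BiFree.Transfer

/-!
The matrix model: a space containing, over the same left and right algebras, a pair of copies of
the `3 × 3` matrices in antisymmetric position and another pair in maximally entangled position.
-/

open scoped ComplexOrder Matrix Kronecker
open Matrix

namespace Q88.BiFree

universe u

noncomputable section

section Kron

open scoped Matrix.Norms.L2Operator

variable (I K : Type*) [Fintype I] [Fintype K] [DecidableEq I] [DecidableEq K]

/-- `a ↦ a ⊗ 1` -/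
def kl : Matrix I I ℂ →⋆ₐ[ℂ] Matrix (I × K) (I × K) ℂ where
  toFun a := a ⊗ₖ (1 : Matrix K K ℂ)
  map_one' := one_kronecker_one
  map_mul' a b := by rw [← mul_kronecker_mul, one_mul]
  map_zero' := zero_kronecker _
  map_add' a b := add_kronecker _ _ _
  commutes' r := by
    rw [Algebra.algebraMap_eq_smul_one, Algebra.algebraMap_eq_smul_one, smul_kronecker,
      one_kronecker_one]
  map_star' a := by
    rw [star_eq_conjTranspose, star_eq_conjTranspose, conjTranspose_kronecker,
      conjTranspose_one]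

/-- `b ↦ 1 ⊗ b` -/
def kr : Matrix K K ℂ →⋆ₐ[ℂ] Matrix (I × K) (I × K) ℂ where
  toFun b := (1 : Matrix I I ℂ) ⊗ₖ b
  map_one' := one_kronecker_one
  map_mul' a b := by rw [← mul_kronecker_mul, one_mul]
  map_zero' := kronecker_zero _
  map_add' a b := kronecker_add _ _ _
  commutes' r := by
    rw [Algebra.algebraMap_eq_smul_one, Algebra.algebraMap_eq_smul_one, kronecker_smul,
      one_kronecker_one]
  map_star' a := by
    rw [star_eq_conjTranspose, star_eq_conjTranspose, conjTranspose_kronecker,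
      conjTranspose_one]

theorem kl_apply (a : Matrix I I ℂ) : kl I K a = a ⊗ₖ (1 : Matrix K K ℂ) := rfl

theorem kr_apply (b : Matrix K K ℂ) : kr I K b = (1 : Matrix I I ℂ) ⊗ₖ b := rfl

theorem kl_injective [Nonempty K] : Function.Injective (kl I K) := by
  intro a b h
  obtain ⟨k⟩ := ‹Nonempty K›
  ext i j
  have := congrFun (congrFun h (i, k)) (j, k)
  simpa [kl_apply, kronecker_apply] using this

theorem kr_injective [Nonempty I] : Function.Injective (kr I K) := by
  intro a b h
  obtain ⟨k⟩ := ‹Nonempty I›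
  ext i j
  have := congrFun (congrFun h (k, i)) (k, j)
  simpa [kr_apply, kronecker_apply] using this

theorem kl_kr_comm (a : Matrix I I ℂ) (b : Matrix K K ℂ) :
    kl I K a * kr I K b = kr I K b * kl I K a := by
  rw [kl_apply, kr_apply, ← mul_kronecker_mul, ← mul_kronecker_mul]
  simp

theorem kl_mul_kr (a : Matrix I I ℂ) (b : Matrix K K ℂ) :
    kl I K a * kr I K b = a ⊗ₖ b := by
  rw [kl_apply, kr_apply, ← mul_kronecker_mul]
  simp

variable {I K}

/-- a matrix seen as a vector -/
def toVec {J : Type*} (V : Matrix J J ℂ) : J × J → ℂ := fun p => V p.1 p.2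

theorem kron_mulVec {J : Type*} [Fintype J] (a b V : Matrix J J ℂ) :
    (a ⊗ₖ b) *ᵥ toVec V = toVec (a * V * bᵀ) := by
  funext p
  obtain ⟨p1, p2⟩ := p
  simp only [mulVec, dotProduct, toVec, mul_apply, transpose_apply]
  rw [Fintype.sum_prod_type_right]
  apply Finset.sum_congr rfl
  intro y _
  rw [Finset.sum_mul]
  apply Finset.sum_congr rfl
  intro x _
  rw [kronecker_apply]
  ring

theorem star_toVec_dot {J : Type*} [Fintype J] (V W : Matrix J J ℂ) :
    star (toVec V) ⬝ᵥ toVec W = (Vᴴ * W).trace := by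
  simp only [dotProduct, toVec, Pi.star_apply, trace, diag_apply, mul_apply, conjTranspose_apply]
  rw [Fintype.sum_prod_type_right]

end Kron

/-- the index set with three elements, in any universe -/
abbrev I3 : Type u := ULift.{u} (Fin 3)

/-- the vectors of the state -/
def vecs (a b : I3.{u}) : Matrix (I3.{u} × I3.{u}) (I3.{u} × I3.{u}) ℂ :=
  (single a b 1 - single b a 1) ⊗ₖ (1 : Matrix I3.{u} I3.{u} ℂ)

/-- The state of the model. -/
def st : Matrix ((I3.{u} × I3.{u}) × (I3.{u} × I3.{u})) ((I3.{u} × I3.{u}) × (I3.{u} × I3.{u})) ℂ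
    →ₗ[ℂ] ℂ where
  toFun T := (1 / 36) * ∑ a : I3.{u}, ∑ b : I3.{u}, star (toVec (vecs a b)) ⬝ᵥ (T *ᵥ toVec (vecs a b))
  map_add' S T := by
    simp only [add_mulVec, dotProduct_add, Finset.sum_add_distrib, mul_add]
  map_smul' c T := by
    simp only [smul_mulVec, dotProduct_smul, RingHom.id_apply, smul_eq_mul, ← Finset.mul_sum]
    ring

theorem st_apply (T : Matrix ((I3.{u} × I3.{u}) × (I3.{u} × I3.{u}))
    ((I3.{u} × I3.{u}) × (I3.{u} × I3.{u})) ℂ) :
    st T = (1 / 36) * ∑ a : I3.{u}, ∑ b : I3.{u},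
      star (toVec (vecs a b)) ⬝ᵥ (T *ᵥ toVec (vecs a b)) := rfl

theorem st_pos (T : Matrix ((I3.{u} × I3.{u}) × (I3.{u} × I3.{u}))
    ((I3.{u} × I3.{u}) × (I3.{u} × I3.{u})) ℂ) : 0 ≤ st (star T * T) := by
  rw [st_apply]
  apply mul_nonneg
  · rw [Complex.le_def]
    norm_num
  · apply Finset.sum_nonneg
    intro a _
    apply Finset.sum_nonneg
    intro b _
    rw [star_eq_conjTranspose, ← mulVec_mulVec, dotProduct_mulVec, ← star_mulVec]
    exact dotProduct_star_self_nonneg _

theorem st_kron (a b : Matrix (I3.{u} × I3.{u}) (I3.{u} × I3.{u}) ℂ) :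
    st (a ⊗ₖ b) = (1 / 36) * ∑ i : I3.{u}, ∑ j : I3.{u},
      ((vecs i j)ᴴ * (a * vecs i j * bᵀ)).trace := by
  rw [st_apply]
  simp only [kron_mulVec, star_toVec_dot]

/-- the sum over the antisymmetric vectors -/
theorem sum_anti (a b : Matrix I3.{u} I3.{u} ℂ) :
    ∑ i : I3.{u}, ∑ j : I3.{u}, ((single i j (1 : ℂ) - single j i 1)ᴴ *
      (a * (single i j 1 - single j i 1) * b)).trace = 2 * (a.trace * b.trace - (a * bᵀ).trace) := by
  have key : ∀ (i j : I3.{u}), ((single i j (1 : ℂ) - single j i 1)ᴴ *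
      (a * (single i j 1 - single j i 1) * b)).trace =
      a i i * b j j - a i j * b i j - a j i * b j i + a j j * b i i := by
    intro i j
    have e : (single i j (1 : ℂ) - single j i 1)ᴴ * (a * (single i j 1 - single j i 1) * b) =
        single j i 1 * a * single i j 1 * b - single j i 1 * a * single j i 1 * b -
          single i j 1 * a * single i j 1 * b + single i j 1 * a * single j i 1 * b := by
      rw [conjTranspose_sub, conjTranspose_single, conjTranspose_single, star_one]
      noncomm_ring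
    rw [e, trace_add, trace_sub, trace_sub]
    simp only [single_mul_mul_single, one_mul, mul_one, trace_single_mul, smul_eq_mul]
  simp only [key]
  have h1 : ∑ i : I3.{u}, ∑ j : I3.{u}, a i i * b j j = a.trace * b.trace := by
    rw [trace, trace, Finset.sum_mul_sum]
    rfl
  have h2 : ∑ i : I3.{u}, ∑ j : I3.{u}, a j j * b i i = a.trace * b.trace := by
    rw [Finset.sum_comm, h1]
  have h3 : ∑ i : I3.{u}, ∑ j : I3.{u}, a i j * b i j = (a * bᵀ).trace := by
    simp only [trace, diag_apply, mul_apply, transpose_apply]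
  have h4 : ∑ i : I3.{u}, ∑ j : I3.{u}, a j i * b j i = (a * bᵀ).trace := by
    rw [Finset.sum_comm, h3]
  simp only [Finset.sum_add_distrib, Finset.sum_sub_distrib, h1, h2, h3, h4]
  ring

/-- The main formula for the state. -/
theorem st_formula (a1 a3 b1 b3 : Matrix I3.{u} I3.{u} ℂ) :
    st ((a1 ⊗ₖ a3) ⊗ₖ (b1 ⊗ₖ b3)) =
      (1 / 18) * (a1.trace * b1.trace - (a1 * b1).trace) * (a3 * b3ᵀ).trace := by
  rw [st_kron]
  have key : ∀ i j : I3.{u}, ((vecs i j)ᴴ * ((a1 ⊗ₖ a3) * vecs i j * (b1 ⊗ₖ b3)ᵀ)).trace =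
      ((single i j (1 : ℂ) - single j i 1)ᴴ *
      (a1 * (single i j 1 - single j i 1) * b1ᵀ)).trace * (a3 * b3ᵀ).trace := by
    intro i j
    unfold vecs
    rw [conjTranspose_kronecker, conjTranspose_one, ← kroneckerMap_transpose, ← mul_kronecker_mul,
      ← mul_kronecker_mul, ← mul_kronecker_mul, trace_kronecker, mul_one, one_mul]
  simp only [key, ← Finset.sum_mul]
  rw [sum_anti, trace_transpose, transpose_transpose]
  ring


theorem trace_one_I3 : (1 : Matrix I3.{u} I3.{u} ℂ).trace = 3 := by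
  rw [trace_one]
  simp

section Model

open scoped Matrix.Norms.L2Operator

theorem mat_sum (a : Matrix (I3.{u} × I3.{u}) (I3.{u} × I3.{u}) ℂ) :
    a = ∑ p : I3.{u} × I3.{u}, ∑ q : I3.{u} × I3.{u},
      a p q • (single p.1 q.1 1 ⊗ₖ single p.2 q.2 1) := by
  conv_lhs => rw [matrix_eq_sum_single a]
  apply Finset.sum_congr rfl
  intro p _
  apply Finset.sum_congr rfl
  intro q _
  rw [single_kronecker_single, smul_single, mul_one, smul_eq_mul, mul_one]

theorem st_left (a : Matrix (I3.{u} × I3.{u}) (I3.{u} × I3.{u}) ℂ) :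
    st (kl _ _ a) = (1 / 9) * a.trace := by
  rw [mat_sum a]
  simp only [map_sum, map_smul, trace_sum, trace_smul, Finset.mul_sum]
  apply Finset.sum_congr rfl
  intro p _
  apply Finset.sum_congr rfl
  intro q _
  rw [kl_apply, ← one_kronecker_one (m := I3.{u}) (n := I3.{u}) (α := ℂ), st_formula,
    trace_one_I3, trace_kronecker, transpose_one, mul_one, mul_one, smul_eq_mul, smul_eq_mul]
  ring

theorem st_right (b : Matrix (I3.{u} × I3.{u}) (I3.{u} × I3.{u}) ℂ) :
    st (kr _ _ b) = (1 / 9) * b.trace := by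
  rw [mat_sum b]
  simp only [map_sum, map_smul, trace_sum, trace_smul, Finset.mul_sum]
  apply Finset.sum_congr rfl
  intro p _
  apply Finset.sum_congr rfl
  intro q _
  rw [kr_apply, ← one_kronecker_one (m := I3.{u}) (n := I3.{u}) (α := ℂ), st_formula,
    trace_one_I3, trace_kronecker, one_mul, one_mul, trace_transpose, smul_eq_mul, smul_eq_mul]
  ring

/-- The model space. -/
def model : Space.{u} where
  A := Matrix ((I3.{u} × I3.{u}) × (I3.{u} × I3.{u})) ((I3.{u} × I3.{u}) × (I3.{u} × I3.{u})) ℂ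
  φ := st
  φ_one := by
    rw [← map_one (kl (I3.{u} × I3.{u}) (I3.{u} × I3.{u})), st_left, trace_one]
    simp
  φ_pos := st_pos
  L := (kl (I3.{u} × I3.{u}) (I3.{u} × I3.{u})).range
  R := (kr (I3.{u} × I3.{u}) (I3.{u} × I3.{u})).range
  L_closed := Submodule.closed_of_finiteDimensional
    (Subalgebra.toSubmodule (kl (I3.{u} × I3.{u}) (I3.{u} × I3.{u})).range.toSubalgebra)
  R_closed := Submodule.closed_of_finiteDimensional
    (Subalgebra.toSubmodule (kr (I3.{u} × I3.{u}) (I3.{u} × I3.{u})).range.toSubalgebra)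
  comm := by
    rintro _ ⟨a, rfl⟩ _ ⟨b, rfl⟩
    exact kl_kr_comm _ _ a b
  trace_L := by
    rintro _ ⟨a, rfl⟩ _ ⟨b, rfl⟩
    show st (kl _ _ a * kl _ _ b) = st (kl _ _ b * kl _ _ a)
    rw [← map_mul, ← map_mul, st_left, st_left, trace_mul_comm]
  trace_R := by
    rintro _ ⟨a, rfl⟩ _ ⟨b, rfl⟩
    show st (kr _ _ a * kr _ _ b) = st (kr _ _ b * kr _ _ a)
    rw [← map_mul, ← map_mul, st_right, st_right, trace_mul_comm]

end Model

end

end Q88.BiFree
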