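import Pool.Agent.Q88.BiFree.Model

/-!
The three systems and the failure of the triangle inequality.
-/

open scoped ComplexOrder Matrix Kronecker
open Matrix

namespace Q88.BiFree

universe u

noncomputable section

open scoped Matrix.Norms.L2Operator

/-- `3 × 3` matrices -/
abbrev M3 := Matrix I3.{u} I3.{u} ℂ

/-- matrix units -/
def eu (i j : Fin 3) : M3.{u} := single ⟨i⟩ ⟨j⟩ 1

theorem eu_mul (i j k l : Fin 3) :
    eu.{u} i j * eu k l = if j = k then eu i l else 0 := by
  unfold eu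
  split_ifs with h
  · subst h
    rw [single_mul_single_same, mul_one]
  · rw [single_mul_single_of_ne]
    intro h'
    exact h (congrArg ULift.down h')

theorem eu_star (i j : Fin 3) : star (eu.{u} i j) = eu j i := by
  unfold eu
  rw [star_eq_conjTranspose, conjTranspose_single, star_one]

theorem eu_sum : ∑ i, eu.{u} i i = 1 := by
  unfold eu
  have h : (1 : M3.{u}) = ∑ i : I3.{u}, single i i 1 := by
    rw [← diagonal_one, ← sum_single_eq_diagonal]
  rw [h]
  exact (Fintype.sum_equiv Equiv.ulift.symm _ _ (fun i => rfl))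

/-- the self-adjoint generators -/
def gen (k : Bool × Fin 3 × Fin 3) : M3.{u} :=
  if k.1 then Complex.I • (eu k.2.1 k.2.2 - eu k.2.2 k.2.1) else eu k.2.1 k.2.2 + eu k.2.2 k.2.1

theorem gen_star (k : Bool × Fin 3 × Fin 3) : star (gen.{u} k) = gen k := by
  unfold gen
  split_ifs
  · rw [star_smul, star_sub, eu_star, eu_star]
    simp only [Complex.star_def, Complex.conj_I]
    module
  · rw [star_add, eu_star, eu_star, add_comm]

theorem gen_comb (i j : Fin 3) :
    (1 / 2 : ℂ) • (gen.{u} (false, i, j) - Complex.I • gen (true, i, j)) = eu i j := by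
  unfold gen
  simp only [Bool.false_eq_true, if_false, if_true, smul_smul, Complex.I_mul_I]
  module

/-- enumeration of the variables -/
def idx : Bool × Fin 3 × Fin 3 ≃ Fin 18 := Fintype.equivFinOfCardEq (by simp)

/-- the four copies of the `3 × 3` matrices -/
def α1 : M3.{u} →⋆ₐ[ℂ] model.{u}.A := (kl (I3.{u} × I3.{u}) (I3.{u} × I3.{u})).comp (kl I3.{u} I3.{u})

def α3 : M3.{u} →⋆ₐ[ℂ] model.{u}.A := (kl (I3.{u} × I3.{u}) (I3.{u} × I3.{u})).comp (kr I3.{u} I3.{u})

def β1 : M3.{u} →⋆ₐ[ℂ] model.{u}.A := (kr (I3.{u} × I3.{u}) (I3.{u} × I3.{u})).comp (kl I3.{u} I3.{u})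

def β3 : M3.{u} →⋆ₐ[ℂ] model.{u}.A := (kr (I3.{u} × I3.{u}) (I3.{u} × I3.{u})).comp (kr I3.{u} I3.{u})

theorem α1_mem (a : M3.{u}) : α1 a ∈ model.{u}.L := ⟨kl _ _ a, rfl⟩
theorem α3_mem (a : M3.{u}) : α3 a ∈ model.{u}.L := ⟨kr _ _ a, rfl⟩
theorem β1_mem (a : M3.{u}) : β1 a ∈ model.{u}.R := ⟨kl _ _ a, rfl⟩
theorem β3_mem (a : M3.{u}) : β3 a ∈ model.{u}.R := ⟨kr _ _ a, rfl⟩

theorem α1_norm (a : M3.{u}) : ‖α1 a‖ = ‖a‖ := by
  apply NonUnitalStarAlgHom.norm_map α1
  intro x y h
  exact kl_injective _ _ (kl_injective _ _ h)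

theorem α3_norm (a : M3.{u}) : ‖α3 a‖ = ‖a‖ := by
  apply NonUnitalStarAlgHom.norm_map α3
  intro x y h
  exact kr_injective _ _ (kl_injective _ _ h)

theorem β1_norm (a : M3.{u}) : ‖β1 a‖ = ‖a‖ := by
  apply NonUnitalStarAlgHom.norm_map β1
  intro x y h
  exact kl_injective _ _ (kr_injective _ _ h)

theorem β3_norm (a : M3.{u}) : ‖β3 a‖ = ‖a‖ := by
  apply NonUnitalStarAlgHom.norm_map β3
  intro x y h
  exact kr_injective _ _ (kr_injective _ _ h)

theorem φ_α1 (a : M3.{u}) : model.{u}.φ (α1 a) = (1 / 3) * a.trace := by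
  show st (kl _ _ (kl _ _ a)) = _
  rw [st_left, kl_apply, trace_kronecker, trace_one_I3]
  ring

theorem φ_α3 (a : M3.{u}) : model.{u}.φ (α3 a) = (1 / 3) * a.trace := by
  show st (kl _ _ (kr _ _ a)) = _
  rw [st_left, kr_apply, trace_kronecker, trace_one_I3]
  ring

theorem φ_β1_α1 (b a : M3.{u}) :
    model.{u}.φ (β1 b * α1 a) = (1 / 6) * (a.trace * b.trace - (a * b).trace) := by
  have h : st (kr (I3.{u} × I3.{u}) (I3.{u} × I3.{u}) (kl I3.{u} I3.{u} b) *
      kl (I3.{u} × I3.{u}) (I3.{u} × I3.{u}) (kl I3.{u} I3.{u} a)) =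
      (1 / 6) * (a.trace * b.trace - (a * b).trace) := by
    rw [← kl_kr_comm, kl_mul_kr, kl_apply, kl_apply, st_formula, transpose_one, mul_one,
      trace_one_I3]
    ring
  exact h

theorem norm2_entangled (i k : Fin 3) : model.{u}.norm2 (α3 (eu k i) - β3 (eu i k)) = 0 := by
  have h : model.{u}.φ (star (α3 (eu k i) - β3 (eu i k)) * (α3 (eu k i) - β3 (eu i k))) = 0 := by
    have key : ∀ a b : M3.{u}, model.{u}.φ (α3 a * β3 b) = (1 / 3) * (a * bᵀ).trace := by
      intro a b
      have h : st (kl (I3.{u} × I3.{u}) (I3.{u} × I3.{u}) (kr I3.{u} I3.{u} a) *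
          kr (I3.{u} × I3.{u}) (I3.{u} × I3.{u}) (kr I3.{u} I3.{u} b)) =
          (1 / 3) * (a * bᵀ).trace := by
        rw [kl_mul_kr, kr_apply, kr_apply, st_formula, mul_one, trace_one_I3]
        ring
      exact h
    have key' : ∀ a b : M3.{u}, model.{u}.φ (β3 b * α3 a) = (1 / 3) * (a * bᵀ).trace := by
      intro a b
      rw [← model.comm _ (α3_mem a) _ (β3_mem b), key]
    have key1 : ∀ a b : M3.{u}, model.{u}.φ (α3 a * α3 b) = (1 / 3) * (a * b).trace := by
      intro a b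
      rw [← map_mul, φ_α3]
    have key2 : ∀ a b : M3.{u}, model.{u}.φ (β3 a * β3 b) = (1 / 3) * (a * b).trace := by
      intro a b
      rw [← map_mul]
      show st (kr _ _ (kr _ _ _)) = _
      rw [st_right, kr_apply, trace_kronecker, trace_one_I3]
      ring
    have e : star (α3 (eu k i) - β3 (eu i k)) * (α3 (eu.{u} k i) - β3 (eu i k)) =
        α3 (star (eu k i)) * α3 (eu k i) - α3 (star (eu k i)) * β3 (eu i k)
        - β3 (star (eu i k)) * α3 (eu k i) + β3 (star (eu i k)) * β3 (eu i k) := by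
      rw [star_sub, map_star, map_star]
      noncomm_ring
    have htr : ∀ i j : Fin 3, (eu.{u} i j)ᵀ = eu j i := by
      intro i j
      unfold eu
      rw [transpose_single]
    rw [e, map_add, map_sub, map_sub, key, key', key1, key2]
    simp only [eu_star, htr, eu_mul, if_true]
    have ht : ∀ i : Fin 3, (eu.{u} i i).trace = 1 := by
      intro i
      unfold eu
      rw [trace_single_eq_same]
    simp only [ht]
    ring
  unfold Space.norm2
  rw [h]
  simp

end

end Q88.BiFree
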