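import Pool.Agent.Q88.BiFree.Core

/-!
Transfer of polynomial relations between systems with the same distribution.
-/

open scoped ComplexOrder

namespace Q88.BiFree

universe u v

noncomputable section

open Space

variable {P : Space.{u}} {Q : Space.{v}} {n m : ℕ}

/-- Evaluation of noncommutative polynomials at a system. -/
def Sys.ev (S : Sys P n m) : FreeAlgebra ℂ (Fin n ⊕ Fin m) →ₐ[ℂ] P.A :=
  FreeAlgebra.lift ℂ S.op

theorem Sys.ev_ι (S : Sys P n m) (i : Fin n ⊕ Fin m) : S.ev (FreeAlgebra.ι ℂ i) = S.op i := by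
  unfold Sys.ev
  rw [FreeAlgebra.lift_ι_apply]

theorem Sys.ev_word (S : Sys P n m) (l : List (Fin n ⊕ Fin m)) :
    S.ev (l.map (FreeAlgebra.ι ℂ)).prod = (l.map S.op).prod := by
  rw [map_list_prod, List.map_map]
  congr 1
  apply List.map_congr_left
  intro i _
  exact S.ev_ι i

theorem Sys.op_sa (S : Sys P n m) (i : Fin n ⊕ Fin m) : star (S.op i) = S.op i := by
  rcases i with i | i
  · exact S.X_sa i
  · exact S.Y_sa i

/-- The adjoint of a polynomial in self-adjoint variables is a polynomial. -/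
theorem exists_dagger (p : FreeAlgebra ℂ (Fin n ⊕ Fin m)) :
    ∃ q : FreeAlgebra ℂ (Fin n ⊕ Fin m),
      (∀ (P : Space.{u}) (S : Sys P n m), star (S.ev p) = S.ev q) ∧
      (∀ (P : Space.{v}) (S : Sys P n m), star (S.ev p) = S.ev q) := by
  induction p using FreeAlgebra.induction with
  | grade0 r =>
    refine ⟨algebraMap ℂ _ (star r), ?_, ?_⟩ <;>
    · intro P S
      rw [AlgHom.commutes, AlgHom.commutes, algebraMap_star_comm]
  | grade1 i =>
    refine ⟨FreeAlgebra.ι ℂ i, ?_, ?_⟩ <;>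
    · intro P S
      rw [S.ev_ι, S.op_sa]
  | mul a b ha hb =>
    obtain ⟨a', ha, ha'⟩ := ha
    obtain ⟨b', hb, hb'⟩ := hb
    refine ⟨b' * a', ?_, ?_⟩
    · intro P S
      rw [map_mul, map_mul, star_mul, ha, hb]
    · intro P S
      rw [map_mul, map_mul, star_mul, ha', hb']
  | add a b ha hb =>
    obtain ⟨a', ha, ha'⟩ := ha
    obtain ⟨b', hb, hb'⟩ := hb
    refine ⟨a' + b', ?_, ?_⟩
    · intro P S
      rw [map_add, map_add, star_add, ha, hb]
    · intro P S
      rw [map_add, map_add, star_add, ha', hb']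

theorem Same.φ_ev {S : Sys P n m} {T : Sys Q n m} (h : Same S T)
    (p : FreeAlgebra ℂ (Fin n ⊕ Fin m)) : P.φ (S.ev p) = Q.φ (T.ev p) := by
  have key : ∀ p : FreeAlgebra ℂ (Fin n ⊕ Fin m), ∀ q : FreeAlgebra ℂ (Fin n ⊕ Fin m),
      (∀ l : List (Fin n ⊕ Fin m), P.φ (S.ev ((l.map (FreeAlgebra.ι ℂ)).prod * q)) =
        Q.φ (T.ev ((l.map (FreeAlgebra.ι ℂ)).prod * q))) →
      (∀ l : List (Fin n ⊕ Fin m), P.φ (S.ev ((l.map (FreeAlgebra.ι ℂ)).prod * (p * q))) =
        Q.φ (T.ev ((l.map (FreeAlgebra.ι ℂ)).prod * (p * q)))) := by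
    intro p
    induction p using FreeAlgebra.induction with
    | grade0 r =>
      intro q hq l
      have h1 : (l.map (FreeAlgebra.ι ℂ)).prod * (algebraMap ℂ _ r * q) =
          r • ((l.map (FreeAlgebra.ι ℂ)).prod * q) := by
        rw [← Algebra.smul_def, mul_smul_comm]
      rw [h1, map_smul, map_smul, map_smul, map_smul, hq l]
    | grade1 i =>
      intro q hq l
      have h1 : (l.map (FreeAlgebra.ι ℂ)).prod * (FreeAlgebra.ι ℂ i * q) =
          ((l ++ [i]).map (FreeAlgebra.ι ℂ)).prod * q := by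
        simp [mul_assoc]
      rw [h1]
      exact hq (l ++ [i])
    | mul a b ha hb =>
      intro q hq l
      have h1 := ha (b * q) (hb q hq) l
      rwa [← mul_assoc a b q] at h1
    | add a b ha hb =>
      intro q hq l
      have h1 := ha q hq l
      have h2 := hb q hq l
      rw [add_mul, mul_add, map_add, map_add, map_add, map_add, h1, h2]
  have h0 := key p 1 (fun l => by
    rw [mul_one, S.ev_word, T.ev_word]
    exact h.law l) []
  simpa using h0

theorem Same.norm2_ev {S : Sys P n m} {T : Sys Q n m} (h : Same S T)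
    (p : FreeAlgebra ℂ (Fin n ⊕ Fin m)) : P.norm2 (S.ev p) = Q.norm2 (T.ev p) := by
  obtain ⟨q, hq, hq'⟩ := exists_dagger.{u, v} p
  unfold Space.norm2
  rw [hq, hq', ← map_mul, ← map_mul, h.φ_ev]

end

end Q88.BiFree
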